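import Pool.Agent.helper14.AV.Spec4

/-!
# av:SE2: the tree of cells of a cuttable family of segments
-/

set_option autoImplicit false

namespace Pool.Agent.helper14.AV

theorem SE2 (hBSC : BSC_stmt) : SE2_stmt := by
  classical
  intro ι _ _ A B hne hcut
  obtain ⟨V, hV, T, e, anc, τ, loc, hconn, hcard, hinj, himg, hanc, hinc, hsep, hcells, hloc⟩ :=
    hBSC ι A B ∅ Finset.univ (Finset.disjoint_empty_left _) hcut
  rw [Finset.card_univ] at hcard
  rw [Finset.coe_univ] at hinj himg
  have hinj2 : Function.Injective e := Set.injOn_univ.1 hinj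
  have hrange : Set.range e = T.edgeSet := by
    rw [← Set.image_univ]
    exact himg
  refine ⟨V, hV, T, e, anc, τ, hcard, ?_, hinj2, hrange, hne,
    fun i c hc => hinc i (Finset.mem_univ i) c hc,
    fun c j => hsep c j (Finset.mem_univ j), hcells⟩
  rw [SimpleGraph.isTree_iff_connected_and_card]
  refine ⟨hconn, ?_⟩
  rw [← hrange, Nat.card_congr (Equiv.ofInjective e hinj2).symm, Nat.card_eq_fintype_card,
    Nat.card_eq_fintype_card, hcard]

end Pool.Agent.helper14.AV
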